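import Pool.Agent.Lib.MP_150066_nt.Main

set_option autoImplicit false

namespace Pool.Agent.Results.MP_150066_nt.PellReduction

open Pool.Agent.Lib.MP_150066_nt

/-- For a given positive `y`, the equation `y (x³ - z²) = x` has a solution in positive integers
exactly when the negative Pell equation `u² + 1 = y v²` is solvable in positive integers and the
least such `v` is `y` times a perfect square. -/
theorem result (y : ℤ) (hy : 0 < y) :
    (∃ x z : ℤ, 0 < x ∧ 0 < z ∧ y * (x ^ 3 - z ^ 2) = x) ↔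
      ∃ c : ℤ, IsLeast {v : ℤ | 0 < v ∧ ∃ u : ℤ, 0 < u ∧ u ^ 2 + 1 = y * v ^ 2} (y * c ^ 2) := by
  constructor
  · rintro ⟨x, z, hx, hz, h⟩
    obtain ⟨a, b, ha, hb, hab⟩ := reduce hx hy hz h
    obtain ⟨v, ⟨hv, u, hu, huv⟩, hmin⟩ := Int.exists_least_of_bdd
      (P := fun v => 0 < v ∧ ∃ u : ℤ, 0 < u ∧ u ^ 2 + 1 = y * v ^ 2)
      ⟨0, fun _ h => h.1.le⟩ ⟨y * a ^ 2, by positivity, b, hb, hab⟩
    obtain ⟨c, rfl⟩ := main hy ha hb hab hu hv huv fun X Y hX hY h => hmin Y ⟨hY, X, hX, h⟩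
    exact ⟨c, ⟨hv, u, hu, huv⟩, fun w hw => hmin w hw⟩
  · rintro ⟨c, ⟨hv, u, hu, huv⟩, -⟩
    have hc : c ≠ 0 := by rintro rfl; simp at hv
    refine ⟨y * c ^ 2, |c| * u, hv, mul_pos (abs_pos.2 hc) hu, ?_⟩
    rw [mul_pow |c|, sq_abs]
    linear_combination -(y * c ^ 2) * huv

end Pool.Agent.Results.MP_150066_nt.PellReduction
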